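import Pool.Agent.Helper27.PB.Goals
import Pool.Agent.Helper12.ZZ.STPC

/-!
PACKET PB-STEPC: one step of the recursion, kernel `C`.
-/

open scoped ENNReal
open Finset

namespace Pool.Agent.Helper5.PB

open Pool.Agent.Helper92.Eps hiding Bas
open Pool.Agent.Helper99.ZZ
open Pool.Agent.Helper27.PB

variable {B : Type} {D : ℕ}

private theorem iv_pos' {P : Prop} (h : P) (x : ℝ≥0∞) : iv P x = x := by
  simp [iv, h]

private theorem iv_neg' {P : Prop} (h : ¬ P) (x : ℝ≥0∞) : iv P x = 0 := by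
  simp [iv, h]

private theorem H_concat (A : Alph B D) (q : List B) (b : B) : A.H (q ++ [b]) = A.H q + A.h b := by
  simp [Alph.H]

/-- The bounds of `F` in the form of `FC`. -/
private theorem fc_of {A : Alph B D} {τ : ℝ≥0∞} (hB : Bas A τ) {r j : ℕ} {Ks Ll : ℝ≥0∞}
    {F : List B → ℝ≥0∞} (hd : DepJ j r) (hs : ∀ p, Stp A r p → A.H p ≤ 2 ^ (j - 2) → F p ≤ Ks)
    (hl : ∀ q, A.H q ≤ r → ∑' b, A.w b * iv (2 ^ (j - 2) < A.H (q ++ [b]) ∧ Tall A r (q ++ [b]))
      (F (q ++ [b])) ≤ Ll) :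
    FC A (Nat.log 2 r) r F (Ks / A.S r + Ll) := by
  have hS0 : A.S r ≠ 0 := (lt_of_lt_of_le one_pos (hB.ren.S_one r)).ne'
  have hSt : A.S r ≠ ⊤ := ne_top_of_le_ne_top (by finiteness) (hB.ren.S_le r)
  have hSle : A.S r ≤ A.S (2 ^ Nat.log 2 r) := by
    rcases hd with h | ⟨ρ, h, -⟩
    · rw [h]; exact hB.ren.S_mono _ _ (Nat.zero_le _)
    · rw [h, Nat.log_pow (by norm_num)]
  have hr2 : 2 * r ≤ 2 ^ (j - 2) := by
    rcases hd with h | ⟨ρ, h, hρ⟩
    · rw [h]; simp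
    · rw [h, ← pow_succ']
      exact Nat.pow_le_pow_right (by norm_num) (by omega)
  refine ⟨?_, ?_⟩
  · intro p hp _ hT
    have hH : A.H p ≤ 2 ^ (j - 2) := by
      rcases hp with ⟨h, rfl⟩ | ⟨h, -⟩
      · simp [Alph.H]
      · have : ¬ 2 * r < A.H p := fun hc => hT ⟨h, hc⟩
        omega
    calc F p ≤ Ks := hs p hp hH
      _ = Ks / A.S r * A.S r := (ENNReal.div_mul_cancel hS0 hSt).symm
      _ ≤ (Ks / A.S r + Ll) * A.S (2 ^ Nat.log 2 r) := by gcongr; exact le_self_add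
  · intro q hq _
    by_cases hr : 1 ≤ r
    swap
    · refine le_trans (le_of_eq ?_) bot_le
      rw [bot_eq_zero, ENNReal.tsum_eq_zero]
      intro b
      rw [iv_neg' (fun h => hr h.1), mul_zero]
    have h1 : ∀ b, A.w b * iv (Tall A r (q ++ [b])) (F (q ++ [b])) ≤
        Ks * iv (r < A.h b) (A.w b) +
        A.w b * iv (2 ^ (j - 2) < A.H (q ++ [b]) ∧ Tall A r (q ++ [b])) (F (q ++ [b])) := by
      intro b
      by_cases hT : Tall A r (q ++ [b])
      · by_cases hH : 2 ^ (j - 2) < A.H (q ++ [b])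
        · rw [iv_pos' hT, iv_pos' (show 2 ^ (j - 2) < A.H (q ++ [b]) ∧ Tall A r (q ++ [b]) from
            ⟨hH, hT⟩)]
          exact le_add_self
        · push Not at hH
          have h2 := hT.2
          rw [H_concat] at h2
          have hb : r < A.h b := by omega
          have hst : Stp A r (q ++ [b]) := by
            refine Or.inr ⟨hr, ?_, ?_⟩
            · rw [List.dropLast_concat]; exact hq
            · rw [H_concat]; omega
          rw [iv_pos' hT, iv_pos' hb, mul_comm Ks]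
          exact le_add_right (mul_le_mul_right (hs _ hst hH) _)
      · rw [iv_neg' hT, mul_zero]; exact bot_le
    calc ∑' b, A.w b * iv (Tall A r (q ++ [b])) (F (q ++ [b]))
        ≤ ∑' b, (Ks * iv (r < A.h b) (A.w b) +
          A.w b * iv (2 ^ (j - 2) < A.H (q ++ [b]) ∧ Tall A r (q ++ [b])) (F (q ++ [b]))) :=
          ENNReal.tsum_le_tsum h1
      _ = Ks * A.Fb r + ∑' b, A.w b * iv (2 ^ (j - 2) < A.H (q ++ [b]) ∧ Tall A r (q ++ [b]))
            (F (q ++ [b])) := by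
          rw [ENNReal.tsum_add, ENNReal.tsum_mul_left]; rfl
      _ ≤ Ks * (A.S r)⁻¹ + Ll := by
          refine add_le_add (mul_le_mul_right ?_ _) (hl q hq)
          rw [← one_div, ENNReal.le_div_iff_mul_le (Or.inl hS0) (Or.inl hSt)]
          exact hB.ren.R3 r
      _ = Ks / A.S r + Ll := by rw [div_eq_mul_inv]

theorem STEPC (hG : GSB_stmt) : STEPC_stmt := by
  intro B D A E τ hB r j Θ L Ks Ll F hd hL hs hl
  have hFC := fc_of hB hd hs hl
  obtain ⟨h1, h2⟩ := Pool.Agent.Helper12.ZZ.STPC hG A E hB.cal hB.ren (Nat.log 2 r) r Θ L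
    (Ks / A.S r + Ll) F hL hFC
  have hS : A.S (2 ^ Nat.log 2 r) ≤ 2 * A.S r := by
    rcases hd with h | ⟨ρ, h, -⟩
    · rw [h]
      have a1 := hB.ren.S_le (2 ^ Nat.log 2 0)
      have a2 := hB.ren.S_one 0
      have a3 : ((2 ^ Nat.log 2 0 : ℕ) : ℝ≥0∞) + 1 = 2 * 1 := by
        norm_num
      rw [a3] at a1
      exact a1.trans (mul_le_mul_right a2 _)
    · rw [h, Nat.log_pow (by norm_num), two_mul]
      exact le_self_add
  refine ⟨h1.trans ?_, h2.trans ?_⟩
  · gcongr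
    norm_num
  · calc 2 * L * (Ks / A.S r + Ll) * A.S (2 ^ Nat.log 2 r)
        ≤ 2 * L * (Ks / A.S r + Ll) * (2 * A.S r) := mul_le_mul_right hS _
      _ = 4 * L * (Ks / A.S r + Ll) * A.S r := by ring

end Pool.Agent.Helper5.PB
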